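import Pool.Agent.Helper298_GQ.Comm

set_option autoImplicit false
open scoped Classical

/-! Elation generalized quadrangles of order `(t²,t)`: symmetries about the elation point are
central in the elation group. -/

namespace Pool.Agent.Results.MP_6ecf75_co.OrderTSquared

/-- Let `(S^x,G)` be a finite thick elation generalized quadrangle of order `(s,t)` with
`s = t²`. Then every symmetry about `x` which lies in `G` commutes with every element of `G`.
In particular every finite thick skew translation generalized quadrangle of order `(t²,t)` is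
central. -/
theorem result : ∀ (P L : Type) [Finite P] [Finite L] (I : P → L → Prop) (s t : ℕ),
    1 < t → s = t ^ 2 →
    (∀ l : L, {p : P | I p l}.ncard = s + 1) →
    (∀ p : P, {l : L | I p l}.ncard = t + 1) →
    (∀ (p q : P) (l m : L), p ≠ q → I p l → I q l → I p m → I q m → l = m) →
    (∀ (p : P) (l : L), ¬ I p l → ∃! q : P, I q l ∧ ∃ m : L, I p m ∧ I q m) →
    ∀ (x : P) (G : Subgroup (Equiv.Perm P × Equiv.Perm L)),
    (∀ g ∈ G, ∀ (p : P) (l : L), I (g.1 p) (g.2 l) ↔ I p l) →
    (∀ g ∈ G, g.1 x = x ∧ ∀ l : L, I x l → g.2 l = l) →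
    (∀ p q : P, (¬ ∃ l : L, I x l ∧ I p l) → (¬ ∃ l : L, I x l ∧ I q l) →
      ∃! g : Equiv.Perm P × Equiv.Perm L, g ∈ G ∧ g.1 p = q) →
    ∀ σ ∈ G, (∀ p : P, (∃ l : L, I x l ∧ I p l) → σ.1 p = p) →
      ∀ g ∈ G, σ * g = g * σ := by
  intro P L _ _ I s t ht hst hcl hcp hpl hax x G hinc hfx hsharp σ hσ hσx g hg
  have := Fintype.ofFinite P
  have := Fintype.ofFinite L
  have hs : 1 < s := by rw [hst]; nlinarith
  have h : Pool.Agent.Helper298.EGQ I s t x G :=
    { cl := by
        intro l
        rw [← hcl l, Set.ncard_eq_toFinset_card']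
        congr 1
        ext p; simp
      cp := by
        intro p
        rw [← hcp p, Set.ncard_eq_toFinset_card']
        congr 1
        ext l; simp
      pl := hpl
      ax := hax
      inc := hinc
      fx := hfx
      sharp := hsharp }
  refine h.comm_all ht hs ?_ hg
  intro k hk M y hM hkM hyM hy
  refine h.comm_of_fix ht ?_ hσ hσx hk hM hkM hyM hy
  intro g' hg' K Ui u hK hgK hxUi huU huK T hT
  exact h.fix_all ht hst hg' hK hgK hxUi huU huK hT

end Pool.Agent.Results.MP_6ecf75_co.OrderTSquared
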